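import Pool.Agent.H78.S.T8

/-!
# Row DET (board sgt_modules)
-/

set_option autoImplicit false

open Set Pool.Agent.H77.BC Pool.Agent.H78.S

namespace Pool.Agent.H97.S

private theorem pow_comm_aux {G : Type} [Group G] {a b c : G} (hc : ∀ g, c * g = g * c)
    (h : a * b = c * (b * a)) (m : ℕ) : a ^ m * b = c ^ m * (b * a ^ m) := by
  induction m with
  | zero => simp
  | succ m ih =>
    have hcm : ∀ g, c ^ m * g = g * c ^ m := fun g => ((show Commute c g from hc g).pow_left m).eq
    calc a ^ (m + 1) * b = a * (a ^ m * b) := by rw [pow_succ', mul_assoc]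
      _ = a * c ^ m * (b * a ^ m) := by rw [ih, mul_assoc]
      _ = c ^ m * ((a * b) * a ^ m) := by rw [← hcm a, mul_assoc, mul_assoc]
      _ = c ^ m * (c * (b * a) * a ^ m) := by rw [h]
      _ = c ^ (m + 1) * (b * a ^ (m + 1)) := by
        rw [pow_succ c, pow_succ' a]; simp only [mul_assoc]

private theorem det_aux {K V : Type} [Field K] [AddCommGroup V] [Module K V]
    (A B : V →ₗ[K] V) (hA : LinearMap.det A ≠ 0) (hB : LinearMap.det B ≠ 0) (k : K)
    (h : A ∘ₗ B = k • (B ∘ₗ A)) : k ^ Module.finrank K V = 1 := by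
  have h1 := congrArg LinearMap.det h
  rw [LinearMap.det_comp, LinearMap.det_smul, LinearMap.det_comp] at h1
  have h2 : (k ^ Module.finrank K V - 1) * (LinearMap.det A * LinearMap.det B) = 0 := by
    linear_combination -h1
  rcases mul_eq_zero.1 h2 with h3 | h3
  · exact sub_eq_zero.1 h3
  · rcases mul_eq_zero.1 h3 with h4 | h4
    · exact absurd h4 hA
    · exact absurd h4 hB

private theorem lin_aux {G K V : Type} [Group G] [Field K] [AddCommGroup V] [Module K V]
    [DistribMulAction G V] (h : ∀ (g : G) (k : K) (v : V), g • (k • v) = k • (g • v)) :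
    ∃ ρ : G → (V →ₗ[K] V), (∀ g v, ρ g v = g • v) ∧ ∀ g, LinearMap.det (ρ g) ≠ 0 := by
  let ρ : G → (V →ₗ[K] V) := fun g =>
    { toFun := fun v => g • v
      map_add' := fun v w => smul_add g v w
      map_smul' := fun k v => h g k v }
  refine ⟨ρ, fun g v => rfl, fun g hg => ?_⟩
  have h1 : ρ g ∘ₗ ρ g⁻¹ = LinearMap.id := by
    ext v
    exact smul_inv_smul g v
  have h2 := congrArg LinearMap.det h1
  rw [LinearMap.det_comp, hg, zero_mul, LinearMap.det_id] at h2
  exact zero_ne_one h2

theorem pf_DET (hKFD : T_KFD) (kCCE : Pool.Agent.H77.KG.T_CCE) (kCTD : Pool.Agent.H77.KG.T_CTD) :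
    T_DET := by
  intro M U G V _ _ _ _ _ _ _ _ hfaith hinf hconn hirr
  haveI := hfaith
  haveI := hinf
  have hcen : U.D ((Subgroup.center G : Subgroup G) : Set G) := by
    have h := (kCTD U (Γ := G)).1 univ
    rwa [Subgroup.centralizer_univ] at h
  obtain ⟨hZc, hle, hR, hidx, -, -⟩ := kCCE U (Subgroup.center G) hcen
  set Zc : Subgroup G := Subgroup.center G with hZcdef
  set Z : Subgroup G := Pool.Agent.H77.KG.cc U Zc with hZdef
  have hcomm : ∀ z ∈ Zc, ∀ g : G, z * g = g * z := fun z hz g =>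
    ((Subgroup.mem_center_iff.1 hz) g).symm
  by_cases hfin : (Zc : Set G).Finite
  · exact ⟨Zc, hfin, fun a b c hc _ => Subgroup.mem_center_iff.2 fun g => (hc g).symm⟩
  -- `Z` is infinite
  haveI hFI : (Z.subgroupOf Zc).FiniteIndex := ⟨hidx⟩
  haveI hQ : Finite (Zc ⧸ Z.subgroupOf Zc) := Subgroup.finite_quotient_of_finiteIndex
  have hZinf : (Z : Set G).Infinite := by
    intro hZf
    apply hfin
    have h1 : (univ : Set Zc).Finite := by
      refine Set.Finite.of_finite_fibers (QuotientGroup.mk : Zc → Zc ⧸ Z.subgroupOf Zc)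
        (Set.toFinite _) ?_
      rintro x ⟨c0, -, rfl⟩
      have h2 : ((fun z : Zc => c0 * z) '' {z : Zc | z.1 ∈ Z}).Finite := by
        refine Set.Finite.image _ ?_
        exact Set.Finite.of_finite_image (f := Subtype.val) (hZf.subset (by
          rintro _ ⟨z, hz, rfl⟩; exact hz)) Subtype.val_injective.injOn
      refine h2.subset ?_
      rintro c ⟨-, hc⟩
      have hc' : (QuotientGroup.mk c0 : Zc ⧸ Z.subgroupOf Zc) = QuotientGroup.mk c :=
        (show (QuotientGroup.mk c : Zc ⧸ Z.subgroupOf Zc) = QuotientGroup.mk c0 from hc).symm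
      rw [QuotientGroup.eq] at hc'
      exact ⟨c0⁻¹ * c, Subgroup.mem_subgroupOf.1 hc', by simp⟩
    have h3 := h1.image Subtype.val
    rw [image_univ, Subtype.range_coe] at h3
    exact h3
  obtain ⟨K, _, _, hfd, hsc, hlin⟩ := hKFD U hfaith hinf hirr Z hZc hZinf
    (fun z hz g => hcomm z (hle hz) g)
  obtain ⟨ρ, hρ, hdet⟩ := lin_aux (G := G) (K := K) (V := V) hlin
  haveI : Nontrivial V := inferInstance
  set m : ℕ := Z.relIndex Zc with hm
  set d : ℕ := Module.finrank K V with hd
  have hdpos : 0 < d := Module.finrank_pos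
  have hmpos : 0 < m := Nat.pos_of_ne_zero hidx
  have hNpos : 0 < m * d := Nat.mul_pos hmpos hdpos
  -- powers
  have hpow : ∀ c ∈ Zc, c ^ m ∈ Z := by
    intro c hc
    haveI : (Z.subgroupOf Zc).Normal := ⟨fun n hn g => by
      have : g * n * g⁻¹ = n := by
        have h1 : g * n = n * g := Subtype.ext ((hcomm g.1 g.2 n.1))
        rw [h1, mul_inv_cancel_right]
      rwa [this]⟩
    have h1 := Subgroup.pow_index_mem (Z.subgroupOf Zc) (⟨c, hc⟩ : Zc)
    exact Subgroup.mem_subgroupOf.1 h1
  have hord : ∀ a b c : G, (∀ g, c * g = g * c) → a * b = c * (b * a) → c ^ (m * d) = 1 := by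
    intro a b c hc hab
    have hcz : c ∈ Zc := Subgroup.mem_center_iff.2 fun g => (hc g).symm
    obtain ⟨k, hk⟩ := hsc (c ^ m) (hpow c hcz)
    have h1 := pow_comm_aux hc hab m
    have h2 : ρ (a ^ m) ∘ₗ ρ b = k • (ρ b ∘ₗ ρ (a ^ m)) := by
      ext v
      simp only [LinearMap.comp_apply, LinearMap.smul_apply, hρ]
      rw [← mul_smul, h1, mul_smul, hk, mul_smul]
    have h3 := det_aux (ρ (a ^ m)) (ρ b) (hdet _) (hdet _) k h2
    have h4 : ∀ (j : ℕ) (v : V), (c ^ m) ^ j • v = k ^ j • v := by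
      intro j
      induction j with
      | zero => intro v; simp
      | succ j ih => intro v; rw [pow_succ, mul_smul, hk, ih, pow_succ, mul_smul]
    refine FaithfulSMul.eq_of_smul_eq_smul (α := V) fun v => ?_
    rw [pow_mul, h4, h3, one_smul, one_smul]
  -- the elements of `Z`
  have hZN : {z : G | z ∈ Z ∧ z ^ (m * d) = 1}.Finite := by
    classical
    choose! κ hκ using hsc
    have hroots : {k : K | k ^ (m * d) = 1}.Finite := by
      refine ((Polynomial.nthRoots (m * d) (1 : K)).toFinset.finite_toSet).subset ?_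
      intro k hk
      rw [Finset.mem_coe, Multiset.mem_toFinset, Polynomial.mem_nthRoots hNpos]
      exact hk
    refine Set.Finite.of_finite_image (f := κ) (hroots.subset ?_) ?_
    · rintro _ ⟨z, ⟨hz, hzN⟩, rfl⟩
      have h4 : ∀ (j : ℕ) (v : V), z ^ j • v = κ z ^ j • v := by
        intro j
        induction j with
        | zero => intro v; simp
        | succ j ih => intro v; rw [pow_succ, mul_smul, hκ z hz, ih, pow_succ, mul_smul]
      obtain ⟨v, hv⟩ := exists_ne (0 : V)
      have h5 := h4 (m * d) v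
      rw [hzN, one_smul] at h5
      have h6 : (κ z ^ (m * d) - 1) • v = 0 := by rw [sub_smul, one_smul, ← h5, sub_self]
      rcases smul_eq_zero.1 h6 with h7 | h7
      · exact sub_eq_zero.1 h7
      · exact absurd h7 hv
    · rintro z ⟨hz, -⟩ w ⟨hw, -⟩ hzw
      refine FaithfulSMul.eq_of_smul_eq_smul (α := V) fun v => ?_
      rw [hκ z hz, hκ w hw]
      exact congrArg (· • v) hzw
  -- the elements of the centre
  have hF : {c : Zc | c ^ (m * d) = 1}.Finite := by
    refine Set.Finite.of_finite_fibers (QuotientGroup.mk : Zc → Zc ⧸ Z.subgroupOf Zc)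
      (Set.toFinite _) ?_
    rintro x ⟨c0, hc0, rfl⟩
    have h2 : ((fun z : Zc => c0 * z) '' {z : Zc | z.1 ∈ Z ∧ z.1 ^ (m * d) = 1}).Finite := by
      refine Set.Finite.image _ ?_
      exact Set.Finite.of_finite_image (f := Subtype.val) (hZN.subset (by
        rintro _ ⟨z, hz, rfl⟩; exact hz)) Subtype.val_injective.injOn
    refine h2.subset ?_
    rintro c ⟨hcN, hc⟩
    have hc' : (QuotientGroup.mk c0 : Zc ⧸ Z.subgroupOf Zc) = QuotientGroup.mk c :=
      (show (QuotientGroup.mk c : Zc ⧸ Z.subgroupOf Zc) = QuotientGroup.mk c0 from hc).symm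
    rw [QuotientGroup.eq] at hc'
    refine ⟨c0⁻¹ * c, ⟨Subgroup.mem_subgroupOf.1 hc', ?_⟩, by simp⟩
    have h5 : Commute c0⁻¹ c := by
      refine Commute.inv_left ?_
      exact Subtype.ext (hcomm c0.1 c0.2 c.1)
    have h6 : (c0⁻¹ * c) ^ (m * d) = 1 := by
      rw [h5.mul_pow, inv_pow, (show c0 ^ (m * d) = 1 from hc0),
        (show c ^ (m * d) = 1 from hcN), inv_one, one_mul]
    have h7 := congrArg Subtype.val h6
    simpa using h7
  refine ⟨Subtype.val '' {c : Zc | c ^ (m * d) = 1}, hF.image _, ?_⟩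
  intro a b c hc hab
  have hcz : c ∈ Zc := Subgroup.mem_center_iff.2 fun g => (hc g).symm
  refine ⟨⟨c, hcz⟩, ?_, rfl⟩
  have h1 := hord a b c hc hab
  exact Subtype.ext (by simpa using h1)

end Pool.Agent.H97.S
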