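import Pool.Agent.H78.S.T8

/-!
# Row LMC (board sgt_modules)
-/

set_option autoImplicit false

open Set Pool.Agent.H77.BC Pool.Agent.H78.S

namespace Pool.Agent.H97.S

theorem pf_LMC (hLCD : T_LCD) (hMAC : T_MAC) : T_LMC := by
  intro C hC M U hU G S _ _ _ _ _ _ hact H X T o e hctx E L
  obtain ⟨M', U', e0, h, c, hCU, hDF, hD⟩ := hLCD C hC U hU hact H X T o e hctx E L
  letI := c
  haveI := hDF
  haveI : Infinite L.K := L.line.inf
  exact hMAC U' L.K

end Pool.Agent.H97.S
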