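import Pool.Agent.H78.S.T8

/-!
# Row MAC (board sgt_modules)
-/

set_option autoImplicit false

open Set Pool.Agent.H77.BC Pool.Agent.H78.S

namespace Pool.Agent.H97.S

theorem pf_MAC (hMCA : T_MCA) (hMCB : T_MCB) : T_MAC := by
  intro M U K _ _ _ _
  refine hMCA K ?_
  intro L _ _ _
  obtain ⟨c, hc⟩ := hMCB U K L
  letI := c
  haveI := hc
  haveI : Infinite L := Infinite.of_injective (algebraMap K L) (algebraMap K L).injective
  exact Pool.Agent.H77.BCP.a_FSP U

end Pool.Agent.H97.S
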